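import Mathlib
import Pool.Agent.Helper59.ZO.Core

/-!
# Contraction of a symmetric class
-/

universe u v w t

open CategoryTheory

namespace Pool.Agent.Helper60.ZO

open Pool.Agent.Helper10 SmProjVar Pool.Agent.Helper59.ZO

variable {k : Type u} [Field k]

/-- the extension of a permutation which fixes the last element -/
def extLast {n : ℕ} (σ : Equiv.Perm (Fin (n + 1))) : Equiv.Perm (Fin (n + 2)) :=
  finSuccEquivLast.trans ((Equiv.optionCongr σ).trans finSuccEquivLast.symm)

lemma extLast_castSucc {n : ℕ} (σ : Equiv.Perm (Fin (n + 1))) (j : Fin (n + 1)) :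
    extLast σ j.castSucc = (σ j).castSucc := by
  simp [extLast]

lemma extLast_last {n : ℕ} (σ : Equiv.Perm (Fin (n + 1))) :
    extLast σ (Fin.last (n + 1)) = Fin.last (n + 1) := by
  simp [extLast]

/-- a permutation of the first factors permutes all the factors -/
lemma permutesFactors_lift (X : SmProjVar k) (n : ℕ)
    {f : (X.selfProd n).toOver ⟶ (X.selfProd n).toOver} (hf : PermutesFactors X n f) :
    PermutesFactors X (n + 1)
      (lift (fst (X.selfProd n) X ≫ f) (snd (X.selfProd n) X)) := by
  obtain ⟨σ, hσ⟩ := hf
  refine ⟨extLast σ, fun j => ?_⟩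
  induction j using Fin.lastCases with
  | last =>
    rw [extLast_last, Fin.val_last, projPow_last X n]
    exact lift_snd _ _
  | cast j =>
    rw [extLast_castSucc, Fin.val_castSucc, Fin.val_castSucc, projPow_succ X n j (by omega),
      projPow_succ X n (σ j) (by omega)]
    exact (lift_fst_assoc _ _ _).trans ((Category.assoc _ _ _).trans
      (congrArg (fun g => fst (X.selfProd n) X ≫ g) (hσ j)))

variable {Ω : Type v} [Field Ω] {K' : Type t} [Field K'] [Algebra K' Ω]

/-- contraction of the last factor preserves symmetric classes -/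
theorem cl_inv (P : SPre.{u, v, w, t} k K' Ω) (X : SmProjVar k) (n : ℕ) (x : P.H X)
    {u : P.H (X.selfProd (n + 1))} (hu : ∀ f, PermutesFactors X (n + 1) f → P.pull f u = u) :
    ∀ f, PermutesFactors X n f → P.pull f (cl P x n u) = cl P x n u := by
  intro f hf
  have h := contr_pull P (A := X.selfProd n) (A' := X.selfProd n) x f u
  have h2 := hu _ (permutesFactors_lift X n hf)
  exact h.symm.trans (congrArg (fun R => P.contr (X.selfProd n) X x R) h2)

end Pool.Agent.Helper60.ZO

namespace Pool.Agent.Helper59.ZO

open Pool.Agent.Helper10 SmProjVar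

variable {k : Type u} [Field k]

theorem symInvariant_cl {K : Type v} [Field K] [CharZero K] (W : WeilCohomology.{u, v, w} k K)
    {X : SmProjVar k} {n : ℕ} (x : W.H X) {u : W.H (X.selfProd (n + 1))}
    (hu : SymInvariant W.toCohomologyData X (n + 1) u) :
    SymInvariant W.toCohomologyData X n (cl (base W) x n u) := fun f hf =>
  Pool.Agent.Helper60.ZO.cl_inv (base W) X n x (fun g hg => hu g hg) f hf

end Pool.Agent.Helper59.ZO
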